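import Mathlib
import Pool.Agent.Lib_MP_55d5ef_top.LevelB

/-!
# `MP_55d5ef_gt`: a knotted torus in the 4-sphere with hyperbolic complement

There is a PL torus `T` in the PL 4-sphere (the boundary of the standard 5-simplex), with a PL
product neighbourhood, whose complement is piecewise smoothly homeomorphic to a complete
orientable hyperbolic 4-manifold `H⁴/Γ` of finite volume.
-/

set_option autoImplicit false

open Matrix MeasureTheory Topology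

namespace Pool.Agent.Results.MP_55d5ef_gt.HyperbolicTorusComplement

/-! ### Hyperbolic 4-manifolds -/

/-- The Lorentz form of signature `(4,1)` on `ℝ⁵`. -/
def lor (x y : Fin 5 → ℝ) : ℝ :=
  x 1 * y 1 + x 2 * y 2 + x 3 * y 3 + x 4 * y 4 - x 0 * y 0

/-- Hyperbolic 4-space `H⁴`: the upper sheet of the hyperboloid `lor x x = -1`
(hyperbolic distance: `cosh d(x,y) = -lor x y`). -/
def H4 : Set (Fin 5 → ℝ) := {x | lor x x = -1 ∧ 0 < x 0}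

/-- Orientation preserving isometries of `H⁴`: the group `SO⁺(4,1)`. -/
def IsOrientationPreservingIsometry (g : GL (Fin 5) ℝ) : Prop :=
  (∀ x y, lor (g.1 *ᵥ x) (g.1 *ᵥ y) = lor x y) ∧ (∀ x ∈ H4, g.1 *ᵥ x ∈ H4) ∧ g.1.det = 1

/-- Hyperbolic volume of a subset of `H⁴`: five times the Lebesgue measure in `ℝ⁵` of the cone
over it from the origin. -/
noncomputable def hypVol (A : Set (Fin 5 → ℝ)) : ENNReal :=
  5 * volume {y | ∃ s ∈ Set.Icc (0 : ℝ) 1, ∃ x ∈ A, y = s • x}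

/-- `Γ` is the group of deck transformations of a complete orientable hyperbolic 4-manifold
`H⁴/Γ` of finite volume. -/
structure IsFiniteVolumeManifoldGroup (Γ : Subgroup (GL (Fin 5) ℝ)) : Prop where
  /-- `Γ` consists of orientation preserving isometries of `H⁴` -/
  isometries : ∀ g ∈ Γ, IsOrientationPreservingIsometry g
  /-- `Γ` acts freely on `H⁴` -/
  free : ∀ g ∈ Γ, ∀ x ∈ H4, g.1 *ᵥ x = x → g = 1
  /-- `Γ` acts properly discontinuously on `H⁴` -/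
  properlyDiscontinuous : ∀ C ⊆ H4, IsCompact C →
    {g : GL (Fin 5) ℝ | g ∈ Γ ∧ ∃ x ∈ C, g.1 *ᵥ x ∈ C}.Finite
  /-- a set of finite hyperbolic volume meets every orbit -/
  finiteVolume : ∃ F ⊆ H4, hypVol F < ⊤ ∧ ∀ x ∈ H4, ∃ g ∈ Γ, g.1 *ᵥ x ∈ F

/-- Two points of `H⁴` are equivalent when an element of `Γ` carries one to the other. -/
def orbitSetoid (Γ : Subgroup (GL (Fin 5) ℝ)) : Setoid H4 where
  r x y := ∃ g ∈ Γ, g.1 *ᵥ (x : Fin 5 → ℝ) = y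
  iseqv := by
    refine ⟨fun x => ⟨1, Γ.one_mem, by simp⟩, ?_, ?_⟩
    · rintro x y ⟨g, hg, h⟩
      refine ⟨g⁻¹, Γ.inv_mem hg, ?_⟩
      rw [← h, Matrix.mulVec_mulVec, ← Units.val_mul]
      simp
    · rintro x y z ⟨g, hg, h⟩ ⟨g', hg', h'⟩
      refine ⟨g' * g, Γ.mul_mem hg' hg, ?_⟩
      rw [← h', ← h, Matrix.mulVec_mulVec, ← Units.val_mul]

/-- The quotient space `H⁴/Γ`. -/
abbrev HypQuot (Γ : Subgroup (GL (Fin 5) ℝ)) : Type := Quotient (orbitSetoid Γ)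

/-! ### The PL 4-sphere and PL tori in it -/

/-- A closed polyhedron: a finite intersection of closed half spaces. -/
def HPoly {E : Type} [AddCommGroup E] [Module ℝ E] [TopologicalSpace E] (Q : Set E) : Prop :=
  ∃ (n : ℕ) (f : Fin n → E →L[ℝ] ℝ) (c : Fin n → ℝ), Q = {x | ∀ k, 0 ≤ f k x + c k}

/-- The boundary of the standard 5-simplex in `ℝ⁶`, the standard PL 4-sphere. -/
def dD5 : Set (Fin 6 → ℝ) := {x | (∀ i, 0 ≤ x i) ∧ ∑ i, x i = 1 ∧ ∃ i, x i = 0}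

/-- The square `[-1,1]²`, a PL disc with centre `0`. -/
def sq : Set (Fin 2 → ℝ) := {p | ∀ i, |p i| ≤ 1}

/-- `ι : ℝ² × [-1,1]² → dD5` induces a PL embedding of `(ℝ²/ℤ²) × [-1,1]²` onto a
neighbourhood of its core `ι (ℝ² × 0)`. -/
structure IsPLTorusNeighbourhood (ι : (Fin 2 → ℝ) × (Fin 2 → ℝ) → (Fin 6 → ℝ)) : Prop where
  /-- values in `dD5` -/
  maps : ∀ x, ∀ p ∈ sq, ι (x, p) ∈ dD5
  /-- exactly the points which agree in `(ℝ²/ℤ²) × [-1,1]²` have the same image -/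
  eq_iff : ∀ x y, ∀ p ∈ sq, ∀ q ∈ sq,
    (ι (x, p) = ι (y, q) ↔ p = q ∧ ∃ m : Fin 2 → ℤ, ∀ i, y i = x i + m i)
  /-- a fundamental domain `[0,1]² × [-1,1]²` is covered by finitely many closed polyhedra, on
  each of which `ι` is affine -/
  piecewiseAffine : ∃ (n : ℕ) (Q : Fin n → Set ((Fin 2 → ℝ) × (Fin 2 → ℝ)))
    (A : Fin n → ((Fin 2 → ℝ) × (Fin 2 → ℝ)) →L[ℝ] (Fin 6 → ℝ)) (b : Fin n → Fin 6 → ℝ),
    (∀ k, HPoly (Q k)) ∧
    (∀ k, ∀ z ∈ Q k, (∀ i, 0 ≤ z.1 i ∧ z.1 i ≤ 1) → z.2 ∈ sq → ι z = A k z + b k) ∧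
    (∀ z, (∀ i, 0 ≤ z.1 i ∧ z.1 i ≤ 1) → z.2 ∈ sq → ∃ k, z ∈ Q k)
  /-- the image of the interior is open in `dD5` -/
  isOpen : ∃ U : Set (Fin 6 → ℝ), IsOpen U ∧
    ι '' {z | ∀ i, |z.2 i| < 1} = U ∩ dD5

/-- The core torus. -/
def coreTorus (ι : (Fin 2 → ℝ) × (Fin 2 → ℝ) → (Fin 6 → ℝ)) : Set (Fin 6 → ℝ) :=
  ι '' {z | z.2 = 0}

/-- A homeomorphism from the complement of `T` in `dD5` to `H⁴/Γ` is piecewise smooth: in
every facet `{x_j = 0}` of `dD5`, a neighbourhood of every point outside `T` is covered by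
finitely many closed polyhedra `Q k`, on each of which the homeomorphism lifts to a map to
`H⁴`, smooth and with injective derivative along the facet. -/
def IsPiecewiseSmooth {Γ : Subgroup (GL (Fin 5) ℝ)} {T : Set (Fin 6 → ℝ)}
    (h : {x : Fin 6 → ℝ // x ∈ dD5 ∧ x ∉ T} ≃ₜ HypQuot Γ) : Prop :=
  ∀ j : Fin 6, ∀ p ∈ dD5, p j = 0 → p ∉ T →
    ∃ (n : ℕ) (Q : Fin n → Set (Fin 6 → ℝ)) (g : Fin n → (Fin 6 → ℝ) → (Fin 5 → ℝ)),
      (∀ k, HPoly (Q k)) ∧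
      (∀ k, ∀ x ∈ Q k, ∀ hx : x ∈ dD5 ∧ x ∉ T, x j = 0 →
        (∃ hg : g k x ∈ H4, h ⟨x, hx⟩ = Quotient.mk _ ⟨g k x, hg⟩) ∧
        ContDiffAt ℝ ((⊤ : ℕ∞) : WithTop ℕ∞) (g k) x ∧
        ∀ v : Fin 6 → ℝ, v j = 0 → ∑ i, v i = 0 → fderiv ℝ (g k) x v = 0 → v = 0) ∧
      (∀ᶠ x in 𝓝 p, x ∈ dD5 → x j = 0 → ∃ k, x ∈ Q k)

/-- There is a torus `T = coreTorus ι` in the PL 4-sphere `dD5`, PL embedded with a PL product
neighbourhood, whose complement is the complete orientable hyperbolic 4-manifold `H⁴/Γ` of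
finite volume, by a piecewise smooth homeomorphism `h`. -/
theorem result : ∃ (Γ : Subgroup (GL (Fin 5) ℝ)) (ι : (Fin 2 → ℝ) × (Fin 2 → ℝ) → (Fin 6 → ℝ))
    (h : {x : Fin 6 → ℝ // x ∈ dD5 ∧ x ∉ coreTorus ι} ≃ₜ HypQuot Γ),
    IsFiniteVolumeManifoldGroup Γ ∧ IsPLTorusNeighbourhood ι ∧ IsPiecewiseSmooth h ∧
    Nonempty (dD5 ≃ₜ Metric.sphere (0 : EuclideanSpace ℝ (Fin 5)) 1) := by
  obtain ⟨Γ, ι, h, h1, h2, h3, h4⟩ := H4T.levelB
  refine ⟨Γ, ι, h, ⟨fun g hg => h1.isometries hg, h1.free, h1.properlyDiscontinuous,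
    h1.finiteVolume⟩, ⟨h2.maps, h2.eq_iff, h2.piecewiseAffine, h2.isOpen⟩, h3, h4⟩

end Pool.Agent.Results.MP_55d5ef_gt.HyperbolicTorusComplement
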